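import Pool.Agent.MWFE.StmtsC
import Pool.Agent.Helper95_MWE.NXL
import Pool.Agent.Helper10_MWE.FCE

/-!
# Squad MWFE, row NXZ: the images of the letters of the chain contain no letters `x`
-/

set_option autoImplicit false

namespace Pool.Agent.MWFE.H41

open Pool.Agent.Helper14_MV Pool.Agent.Helper2_MV Pool.Agent.MVD
open Pool.Agent.MWE (Can XX fxy dxy dx dy up cp cl L4 pr Xs xl isx Fs nd nr)
open Pool.Agent.MWGR (cb)
open Pool.Agent.MWE.H95

theorem mem_T4 {n m l z : ℕ} (h : z ∈ T4 n m l) : z = 3 * l ∨ ∃ k < 3, z = hk m k := by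
  unfold T4 at h
  rcases List.mem_append.1 h with h | h
  · obtain ⟨k, hk1, hk2⟩ := List.mem_flatMap.1 h
    exact Or.inr ⟨k, List.mem_range.1 hk1, List.eq_of_mem_replicate hk2⟩
  · rcases List.mem_cons.1 h with h | h
    · exact Or.inl h
    · obtain ⟨k, hk1, hk2⟩ := List.mem_flatMap.1 h
      exact Or.inr ⟨k, List.mem_range.1 hk1, List.eq_of_mem_replicate hk2⟩

theorem nxz : NxzStmt := by
  intro n m R c s t M Q φ B e hcan hR hs ht hW hF hsf hpos hx0 hx2 k hk u hu v hv hxv
  obtain ⟨R1, R2, A', C', hR12, hB1, U, V, hUV, hMU⟩ := hpos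
  obtain ⟨a, A, h, C, ha, hL⟩ := hx2
  have hnd : R.Nodup := hR.nodup_iff.2 List.nodup_range
  have hmem : ∀ r, r ∈ R ↔ r < m + 2 := fun r => by rw [hR.mem_iff, List.mem_range]
  obtain ⟨w, hw, rfl⟩ : ∃ w ∈ c, cl k w = u := by simpa [cp] using hu
  have hFCE := Pool.Agent.MWE.H10.fce
  obtain ⟨Bp, hBp⟩ : ∃ Bp : ℕ → List ℕ, Bp = Bq n m s c := ⟨_, rfl⟩
  have hFq : FqZ n m R s c = Bw R Bp := by rw [hBp]; rfl
  have hp0 : Bp 0 = s.flatMap (T4 n m) := by rw [hBp]; rfl
  have hp1 : Bp 1 = L4 c := by rw [hBp]; rfl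
  have hp2 : ∀ l, Bp (l + 2) = Z3 (l + 2) := by
    intro l
    rw [hBp]
    show (if l + 2 = 0 then _ else if l + 2 = 1 then _ else _) = _
    rw [if_neg (by omega), if_neg (by omega)]
  have hZ : ∀ l z, z ∈ Z3 (l + 2) → z % 3 = 1 ∧ z ≠ 0 := by
    intro l z hz
    unfold Z3 at hz
    simp only [List.mem_cons, List.not_mem_nil, or_false] at hz
    omega
  have hpsf : ∀ r ∈ R, SFr (Bp r) := by
    intro r _ z hz
    rcases Nat.lt_or_ge r 2 with hr | hr
    · have hr' : r = 0 ∨ r = 1 := by omega
      rcases hr' with rfl | rfl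
      · rw [hp0] at hz
        obtain ⟨i, _, hz⟩ := List.mem_flatMap.1 hz
        rcases mem_T4 hz with h | ⟨k', _, h⟩
        · omega
        · change _ = 3 * (3 * m + k') + 1 at h
          omega
      · rw [hp1] at hz
        exact nsf_L4 c z hz
    · obtain ⟨l, rfl⟩ : ∃ l, r = l + 2 := ⟨r - 2, by omega⟩
      rw [hp2] at hz
      have := (hZ l z hz).1
      omega
  have hclen : 1 ≤ c.length := List.length_pos_of_mem hw
  have hL4len : (L4 c).length = 4 + 3 * c.length := by
    unfold L4 cp
    simp only [List.length_cons, List.length_append, List.length_map, List.length_nil]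
    omega
  -- the position of the main block in the pattern
  obtain ⟨P1, P2, hP, hU, hV⟩ : ∃ P1 P2 : List ℕ, R = P1 ++ 1 :: P2 ∧ U = Bw P1 Bp ∧
      V = 5 :: Bw P2 Bp := by
    have h1 := hFCE R Bp [] U (L4 c) V hpsf (nsf_L4 c) (by unfold L4; simp)
      (by rw [List.append_nil, ← hFq]; exact hUV)
    rcases h1 with ⟨P1, r, P2, a1, c1, h2, h3, h4, h5⟩ | ⟨a1, c1, h2, _⟩
    · have hlen := congrArg List.length h3
      rw [List.length_append, List.length_append, hL4len] at hlen
      rcases Nat.lt_or_ge r 2 with hr | hr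
      · have hr' : r = 0 ∨ r = 1 := by omega
        rcases hr' with rfl | rfl
        · exfalso
          have h0 : cl 0 w ∈ Bp 0 := by
            rw [h3]
            refine List.mem_append_right _ (List.mem_append_left _ ?_)
            exact (ncp_sub (by omega) c).subset (List.mem_map.2 ⟨w, hw, rfl⟩)
          rw [hp0] at h0
          obtain ⟨i, hi, h0⟩ := List.mem_flatMap.1 h0
          have hi4 : i < 4 := by
            have := hs.subset hi
            simp only [List.mem_cons, List.not_mem_nil, or_false] at this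
            omega
          rcases hcan.lo w hw with ⟨l, hl, rfl⟩ | ⟨w1, w2, _⟩
          · have e0 : cl 0 (3 * l + 1) = 3 * (3 * l) + 1 := by
              unfold cl
              rw [if_pos (by omega)]
              omega
            rw [e0] at h0
            rcases mem_T4 h0 with h | ⟨k', _, h⟩
            · omega
            · change _ = 3 * (3 * m + k') + 1 at h
              omega
          · have e0 : cl 0 w = 3 * (3 * (w / 3) + 0 - 2) := by
              unfold cl
              rw [if_neg (by omega)]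
            rw [e0] at h0
            rcases mem_T4 h0 with h | ⟨k', _, h⟩
            · omega
            · change _ = 3 * (3 * m + k') + 1 at h
              omega
        · rw [hp1, hL4len] at hlen
          have ha1 : a1 = [] := List.eq_nil_of_length_eq_zero (by omega)
          have hc1 : c1 = [] := List.eq_nil_of_length_eq_zero (by omega)
          subst ha1 hc1
          refine ⟨P1, P2, h2, by rw [h4, List.append_nil], ?_⟩
          rw [h5, List.append_nil, List.nil_append]
      · obtain ⟨l, rfl⟩ : ∃ l, r = l + 2 := ⟨r - 2, by omega⟩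
        have h0 : 0 ∈ Bp (l + 2) := by
          rw [h3]
          unfold L4
          simp
        rw [hp2] at h0
        exact absurd rfl (hZ l 0 h0).2
    · have := congrArg List.length h2
      rw [List.length_append, List.length_append, hL4len] at this
      simp only [List.length_nil] at this
      omega
  -- the rest of the word
  have hVQ : V.flatMap φ ++ Q = C' ++ 5 :: (Bw R2 B ++ e) := by
    have h1 : (Bw R1 B ++ A') ++ ((L4 c).flatMap φ ++ (V.flatMap φ ++ Q)) =
        (Bw R1 B ++ A') ++ ((L4 c).flatMap φ ++ (C' ++ 5 :: (Bw R2 B ++ e))) := by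
      rw [← hMU]
      calc (M ++ U.flatMap φ) ++ ((L4 c).flatMap φ ++ (V.flatMap φ ++ Q))
          = M ++ ((U ++ (L4 c ++ V)).flatMap φ ++ Q) := by
            rw [List.flatMap_append, List.flatMap_append]
            simp only [List.append_assoc]
        _ = Bw R B ++ e := by rw [← hUV]; exact hW
        _ = (Bw R1 B ++ A') ++ ((L4 c).flatMap φ ++ (C' ++ 5 :: (Bw R2 B ++ e))) := by
            rw [hR12, nBw_append, nBw_cons, hB1]
            simp only [List.append_assoc, List.cons_append]
        _ = (M ++ U.flatMap φ) ++ ((L4 c).flatMap φ ++ (C' ++ 5 :: (Bw R2 B ++ e))) := by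
            rw [hMU]
    exact List.append_cancel_left (List.append_cancel_left h1)
  obtain ⟨B', hB'⟩ : ∃ B' : ℕ → List ℕ, B' = fun r => if r = 1 then A' ++ C' else B r := ⟨_, rfl⟩
  have hB'1 : B' 1 = A' ++ C' := by rw [hB']; rfl
  have hB'n : ∀ r, r ≠ 1 → B' r = B r := by
    intro r hr
    rw [hB']
    show (if r = 1 then _ else _) = _
    rw [if_neg hr]
  have hnd' := hnd
  rw [hR12, List.nodup_append, List.nodup_cons] at hnd'
  have h1R1 : 1 ∉ R1 := fun h => hnd'.2.2 1 h 1 (by simp) rfl
  have h1R2 : 1 ∉ R2 := hnd'.2.1.1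
  have hW' : Bw R B' ++ e = (M ++ U.flatMap φ) ++ (V.flatMap φ ++ Q) := by
    rw [hVQ, hMU]
    have e1 : Bw R1 B' = Bw R1 B := nBw_congr (fun r hr => hB'n r (fun h => h1R1 (h ▸ hr)))
    have e2 : Bw R2 B' = Bw R2 B := nBw_congr (fun r hr => hB'n r (fun h => h1R2 (h ▸ hr)))
    rw [hR12, nBw_append, nBw_cons, e1, e2, hB'1]
    simp only [List.append_assoc, List.cons_append]
  have hsf' : ∀ r ∈ R, SFr (B' r) := by
    intro r _
    by_cases hr : r = 1
    · subst hr
      rw [hB'1]
      intro z hz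
      refine hF.sf 1 z ?_
      rw [hB1]
      rcases List.mem_append.1 hz with hz | hz
      · exact List.mem_append_left _ hz
      · exact List.mem_append_right _ (List.mem_append_right _ hz)
    · rw [hB'n r hr]
      exact hF.sf r
  -- the factor
  have hfac : ∀ l < m, ∃ X Y : List ℕ,
      Bw R B' ++ e = X ++ ((Z3 (l + 2)).flatMap φ ++ Y) := by
    intro l hl
    have h1 : l + 2 ∈ P1 ++ 1 :: P2 := by rw [← hP, hmem]; omega
    rcases List.mem_append.1 h1 with h1 | h1
    · obtain ⟨S1, S2, h2⟩ := List.append_of_mem h1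
      refine ⟨M ++ (Bw S1 Bp).flatMap φ,
        ((3 * (l + 2) + 2) :: Bw S2 Bp).flatMap φ ++ (V.flatMap φ ++ Q), ?_⟩
      rw [hW', hU, h2, nBw_append, nBw_cons, hp2, List.flatMap_append, List.flatMap_append]
      simp only [List.append_assoc]
    · have h1' : l + 2 ∈ P2 := by
        rcases List.mem_cons.1 h1 with h | h
        · omega
        · exact h
      obtain ⟨S1, S2, h2⟩ := List.append_of_mem h1'
      refine ⟨(M ++ U.flatMap φ) ++ (5 :: Bw S1 Bp).flatMap φ,
        ((3 * (l + 2) + 2) :: Bw S2 Bp).flatMap φ ++ Q, ?_⟩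
      have e3 : V = (5 :: Bw S1 Bp) ++ (Z3 (l + 2) ++ (3 * (l + 2) + 2) :: Bw S2 Bp) := by
        rw [hV, h2, nBw_append, nBw_cons, hp2]
        simp only [List.cons_append]
      rw [hW', e3, List.flatMap_append, List.flatMap_append]
      simp only [List.append_assoc]
  have hZsf : ∀ l < m, SFr ((Z3 (l + 2)).flatMap φ) := by
    intro l hl z hz
    obtain ⟨y, hy, hzy⟩ := List.mem_flatMap.1 hz
    refine hsf y ?_ ?_ z hzy
    · rw [hFq]
      unfold Bw
      refine List.mem_flatMap.2 ⟨l + 2, (hmem _).2 (by omega), ?_⟩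
      rw [hp2]
      exact List.mem_append_left _ hy
    · have := (hZ l y hy).1
      omega
  -- the letters `D_d`
  have hB1' : B 1 = (A' ++ A) ++ 3 * a :: (h ++ 3 * (a + 1) :: (C ++ C')) := by
    rw [hB1, hL]
    simp only [List.append_assoc, List.cons_append]
  have hDL : ∀ d < m, 3 * (3 * d + a) + 1 ∈ (L4 c).flatMap φ := by
    intro d hd
    have h1 := hF.fu (A' ++ A) h (C ++ C') a hB1' ha d hd
    rw [hL]
    exact List.mem_append_right _ (List.mem_cons_of_mem _ (List.mem_append_left _ h1))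
  have hc1 : ∀ z, (B 1).count z = A'.count z + (((L4 c).flatMap φ).count z + C'.count z) := by
    intro z
    rw [hB1, List.count_append, List.count_append]
  have h1R : 1 ∈ R := (hmem 1).2 (by omega)
  have h0R : 0 ∈ R := (hmem 0).2 (by omega)
  have hD1 : ∀ d < m, (B 1).count (3 * (3 * d + a) + 1) = 1 := by
    intro d hd
    have h1 := hF.li (3 * d + a) (by omega) 1 h1R
    rw [if_pos (Or.inl rfl)] at h1
    exact h1
  have key : ∀ d < m, ∀ l < m, 3 * (3 * d + a) + 1 ∈ (Z3 (l + 2)).flatMap φ →
      ∀ z ∈ (Z3 (l + 2)).flatMap φ, z ∈ B (d + 2) := by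
    intro d hd l hl hDF z hz
    obtain ⟨X, Y, hXY⟩ := hfac l hl
    rcases hFCE R B' e X _ Y hsf' (hZsf l hl) (List.ne_nil_of_mem hDF) hXY with
      ⟨S1, r, S2, a1, c1, h2, h3, -, -⟩ | ⟨a1, c1, h2, -⟩
    · have hrR : r ∈ R := by rw [h2]; simp
      have hin : ∀ y ∈ (Z3 (l + 2)).flatMap φ, y ∈ B' r := by
        intro y hy
        rw [h3]
        exact List.mem_append_right _ (List.mem_append_left _ hy)
      by_cases hr : r = 1
      · exfalso
        subst hr
        have h4 := hin _ hDF
        rw [hB'1] at h4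
        have h5 : 1 ≤ (A' ++ C').count (3 * (3 * d + a) + 1) := List.one_le_count_iff.2 h4
        rw [List.count_append] at h5
        have h6 := hc1 (3 * (3 * d + a) + 1)
        rw [hD1 d hd] at h6
        have h7 : 1 ≤ ((L4 c).flatMap φ).count (3 * (3 * d + a) + 1) :=
          List.one_le_count_iff.2 (hDL d hd)
        omega
      · have h4 := hin _ hDF
        rw [hB'n r hr] at h4
        have h5 : 1 ≤ (B r).count (3 * (3 * d + a) + 1) := List.one_le_count_iff.2 h4
        rw [hF.li (3 * d + a) (by omega) r hrR] at h5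
        have h6 : r = d + 2 := by
          by_contra h7
          rw [if_neg (by omega)] at h5
          omega
        have h7 := hin z hz
        rw [hB'n r hr, h6] at h7
        exact h7
    · exfalso
      refine hF.le (3 * d + a) (by omega) ?_
      rw [h2]
      exact List.mem_append_right _ (List.mem_append_left _ hDF)
  have hlight : ∀ l k', k' < 3 → cl k' (3 * l + 1) ∈ Z3 (l + 2) := by
    intro l k' hk'
    unfold cl Z3
    rw [if_pos (by omega)]
    simp only [List.mem_cons, List.not_mem_nil, or_false]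
    have h1 : (3 * l + 1) / 3 = l := by omega
    rw [h1]
    omega
  have hex : ∀ d < m, ∃ l < m, 3 * (3 * d + a) + 1 ∈ (Z3 (l + 2)).flatMap φ := by
    intro d hd
    obtain ⟨u, hu, hDu⟩ := List.mem_flatMap.1 (hDL d hd)
    rcases nmem_L4 hu with ⟨i, hi, rfl⟩ | ⟨k', hk', w', hw', rfl⟩
    · exfalso
      have h1 := hx0 i hi _ hDu
      have h2 : 1 ≤ (B 0).count (3 * (3 * d + a) + 1) := List.one_le_count_iff.2 h1
      rw [hF.li (3 * d + a) (by omega) 0 h0R, if_neg (by omega)] at h2
      omega
    · rcases hcan.lo w' hw' with ⟨l, hl, rfl⟩ | ⟨_, _, h2⟩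
      · exact ⟨l, hl, List.mem_flatMap.2 ⟨_, hlight l k' hk', hDu⟩⟩
      · exfalso
        have h3 := nloc hk' h2 φ hDu
        have h4 := hc1 (3 * (3 * d + a) + 1)
        rw [hD1 d hd] at h4
        omega
  -- pigeonhole
  have hall : ∀ l < m, ∃ d < m, 3 * (3 * d + a) + 1 ∈ (Z3 (l + 2)).flatMap φ := by
    choose f hf1 hf2 using hex
    let g : Fin m → Fin m := fun d => ⟨f d.1 d.2, hf1 d.1 d.2⟩
    have hg : Function.Injective g := by
      intro d d' hdd
      have h1 : f d.1 d.2 = f d'.1 d'.2 := congrArg Fin.val hdd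
      have h2 := hf2 d.1 d.2
      have h3 := hf2 d'.1 d'.2
      rw [← h1] at h3
      have h4 := key d.1 d.2 _ (hf1 d.1 d.2) h2 _ h3
      have h5 : 1 ≤ (B (d.1 + 2)).count (3 * (3 * d'.1 + a) + 1) := List.one_le_count_iff.2 h4
      have hd1 := d.2
      have hd2 := d'.2
      rw [hF.li (3 * d'.1 + a) (by omega) (d.1 + 2) ((hmem _).2 (by omega))] at h5
      by_contra h6
      have h7 : d.1 ≠ d'.1 := fun h => h6 (Fin.ext h)
      rw [if_neg (by omega)] at h5
      omega
    have hg' : Function.Surjective g := Finite.injective_iff_surjective.1 hg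
    intro l hl
    obtain ⟨d, hd⟩ := hg' ⟨l, hl⟩
    have h1 : f d.1 d.2 = l := congrArg Fin.val hd
    have h2 := hf2 d.1 d.2
    rw [h1] at h2
    exact ⟨d.1, d.2, h2⟩
  -- the end
  rcases hcan.lo w hw with ⟨l, hl, rfl⟩ | ⟨_, _, h2⟩
  · obtain ⟨d, hd, hDd⟩ := hall l hl
    have h1 : v ∈ (Z3 (l + 2)).flatMap φ := List.mem_flatMap.2 ⟨_, hlight l k hk, hv⟩
    have h2 := key d hd l hl hDd v h1
    have h3 := nmem_xl hxv h2
    rw [hF.xo (d + 2) ((hmem _).2 (by omega)) (by omega) (by omega)] at h3
    simp at h3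
  · have h3 := nloc hk h2 φ hv
    have h4 := hc1 v
    have h5 : 2 ≤ (B 1).count v := by omega
    have h6 := ncount_xl hxv h5
    rw [hF.x1] at h6
    have h7 : ([0, 1, 2, 3] : List ℕ).count (v / 3) ≤ 1 :=
      List.nodup_iff_count_le_one.1 (by decide) _
    omega

end Pool.Agent.MWFE.H41
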