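import Pool.Agent.MWFE.StmtsA

/-!
# Squad MWFE, row YQZ: the tokens with labels
-/

set_option autoImplicit false

namespace Pool.Agent.MWFE.H41

open Pool.Agent.Helper14_MV Pool.Agent.Helper2_MV Pool.Agent.MVD
open Pool.Agent.MWE (Can XX fxy dxy dx dy up cp L4 pr Xs xl isx Fs nd nr)
open Pool.Agent.MWGR (cb)

theorem cnt_pwr (k : ℕ) (w : List ℕ) (h : ℕ) : (pwr k w).count h = k * w.count h := by
  unfold pwr
  induction k with
  | zero => simp
  | succ k ih =>
    rw [List.replicate_succ, List.flatten_cons, List.count_append, ih]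
    ring

/-- the part before the token -/
def Pp (n : ℕ) (ζ : ℕ → List ℕ) (l : ℕ) : List ℕ :=
  (List.range 3).flatMap (fun k => pwr (n + if k < l then 1 else 0) (ζ k))

/-- the part behind the token -/
def Qp (n : ℕ) (ζ : ℕ → List ℕ) (l : ℕ) : List ℕ :=
  (List.range 3).flatMap (fun k => pwr (2 * n - if k < l then 1 else 0) (ζ k))

/-- the total count in the heavy words -/
def Cc (ζ : ℕ → List ℕ) (h : ℕ) : ℕ := (ζ 0).count h + ((ζ 1).count h + (ζ 2).count h)

/-- the count in `Pp` -/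
theorem cnt_Pp (n : ℕ) (ζ : ℕ → List ℕ) (l h : ℕ) : (Pp n ζ l).count h =
    (n + if 0 < l then 1 else 0) * (ζ 0).count h + ((n + if 1 < l then 1 else 0) *
      (ζ 1).count h + (n + if 2 < l then 1 else 0) * (ζ 2).count h) := by
  have e : List.range 3 = [0, 1, 2] := by decide
  unfold Pp
  rw [e]
  simp only [List.flatMap_cons, List.flatMap_nil, List.append_nil, List.count_append, cnt_pwr]

theorem cnt_Qp (n : ℕ) (ζ : ℕ → List ℕ) (l h : ℕ) : (Qp n ζ l).count h =
    (2 * n - if 0 < l then 1 else 0) * (ζ 0).count h + ((2 * n - if 1 < l then 1 else 0) *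
      (ζ 1).count h + (2 * n - if 2 < l then 1 else 0) * (ζ 2).count h) := by
  have e : List.range 3 = [0, 1, 2] := by decide
  unfold Qp
  rw [e]
  simp only [List.flatMap_cons, List.flatMap_nil, List.append_nil, List.count_append, cnt_pwr]

theorem cnt_PQ {n : ℕ} (hn : 2 ≤ n) (ζ : ℕ → List ℕ) (l h : ℕ) :
    (Pp n ζ l).count h + (Qp n ζ l).count h = 3 * n * Cc ζ h := by
  have key : ∀ (b c : ℕ), b ≤ 1 → (n + b) * c + (2 * n - b) * c = 3 * n * c := by
    intro b c hb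
    rw [← Nat.add_mul]
    congr 1
    omega
  have b1 : ∀ k, (if k < l then 1 else 0) ≤ 1 := fun k => by split_ifs <;> omega
  rw [cnt_Pp, cnt_Qp]
  have k0 := key _ ((ζ 0).count h) (b1 0)
  have k1 := key _ ((ζ 1).count h) (b1 1)
  have k2 := key _ ((ζ 2).count h) (b1 2)
  unfold Cc
  rw [Nat.mul_add, Nat.mul_add]
  omega

theorem le_Pp {n : ℕ} (ζ : ℕ → List ℕ) (l h : ℕ) : n * Cc ζ h ≤ (Pp n ζ l).count h := by
  rw [cnt_Pp]
  unfold Cc
  rw [Nat.mul_add, Nat.mul_add]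
  have key : ∀ (b c : ℕ), n * c ≤ (n + b) * c := fun b c => Nat.mul_le_mul_right c (by omega)
  have k0 := key (if 0 < l then 1 else 0) ((ζ 0).count h)
  have k1 := key (if 1 < l then 1 else 0) ((ζ 1).count h)
  have k2 := key (if 2 < l then 1 else 0) ((ζ 2).count h)
  omega

theorem le_Qp {n : ℕ} (hn : 2 ≤ n) (ζ : ℕ → List ℕ) (l h : ℕ) : Cc ζ h ≤ (Qp n ζ l).count h := by
  rw [cnt_Qp]
  unfold Cc
  have key : ∀ (b c : ℕ), b ≤ 1 → c ≤ (2 * n - b) * c := by
    intro b c hb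
    have : 1 * c ≤ (2 * n - b) * c := Nat.mul_le_mul_right c (by omega)
    omega
  have b1 : ∀ k, (if k < l then 1 else 0) ≤ 1 := fun k => by split_ifs <;> omega
  have k0 := key _ ((ζ 0).count h) (b1 0)
  have k1 := key _ ((ζ 1).count h) (b1 1)
  have k2 := key _ ((ζ 2).count h) (b1 2)
  omega

theorem yw_eq (n : ℕ) (ζ A : ℕ → List ℕ) (s : List ℕ) :
    Yw n ζ A s = s.flatMap (fun l => Pp n ζ l ++ (A l ++ Qp n ζ l)) := rfl

theorem cnt_Yw {n : ℕ} (hn : 2 ≤ n) (ζ A : ℕ → List ℕ) (s : List ℕ) (h : ℕ) :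
    (Yw n ζ A s).count h = s.length * (3 * n * Cc ζ h) + (s.map (fun l => (A l).count h)).sum := by
  rw [yw_eq]
  induction s with
  | nil => simp
  | cons l s ih =>
    rw [List.flatMap_cons, List.count_append, ih, List.count_append, List.count_append,
      List.length_cons, List.map_cons, List.sum_cons, Nat.add_mul]
    have := cnt_PQ hn ζ l h
    omega

theorem sum_zero {f : ℕ → ℕ} {s : List ℕ} (h : ∀ l ∈ s, f l = 0) : (s.map f).sum = 0 := by
  induction s with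
  | nil => rfl
  | cons l s ih =>
    rw [List.map_cons, List.sum_cons, h l (by simp), ih (fun l hl => h l (by simp [hl]))]

theorem mem4 {s : List ℕ} (hs : s.Perm [0, 1, 2, 3]) (l : ℕ) : l ∈ s ↔ l < 4 := by
  rw [hs.mem_iff]
  simp only [List.mem_cons, List.not_mem_nil, or_false]
  omega

/-- the place of a letter which occurs once -/
theorem place {n : ℕ} (hn : 2 ≤ n) {ζ A : ℕ → List ℕ} {s : List ℕ} (hs : s.Perm [0, 1, 2, 3])
    {v : ℕ} (hv : (Yw n ζ A s).count v = 1) :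
    Cc ζ v = 0 ∧ ∃ l0 < 4, v ∈ A l0 ∧ ∀ l < 4, l ≠ l0 → v ∉ A l := by
  have h1 := cnt_Yw hn ζ A s v
  rw [hv, hs.length_eq] at h1
  have hC : Cc ζ v = 0 := by
    by_contra hc
    have h2 : 1 ≤ Cc ζ v := Nat.one_le_iff_ne_zero.2 hc
    have h3 : 3 * n * 1 ≤ 3 * n * Cc ζ v := Nat.mul_le_mul_left _ h2
    simp only [List.length_cons, List.length_nil] at h1
    omega
  refine ⟨hC, ?_⟩
  rw [hC] at h1
  have h2 : (s.map (fun l => (A l).count v)).sum = 1 := by omega
  have h3 : ∃ l ∈ s, (A l).count v ≠ 0 := by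
    by_contra hc
    push Not at hc
    rw [sum_zero hc] at h2
    omega
  obtain ⟨l0, hl0, hc0⟩ := h3
  refine ⟨l0, (mem4 hs l0).1 hl0, List.count_pos_iff.1 (Nat.pos_of_ne_zero hc0), ?_⟩
  intro l hl hne hvl
  obtain ⟨s1, s2, rfl⟩ := List.append_of_mem hl0
  rw [List.map_append, List.map_cons, List.sum_append, List.sum_cons] at h2
  have h4 : l ∈ s1 ++ l0 :: s2 := (mem4 hs l).2 hl
  have h5 : 1 ≤ (A l).count v := List.one_le_count_iff.2 hvl
  have h6 : l ∈ s1 ∨ l ∈ s2 := by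
    rcases List.mem_append.1 h4 with h | h
    · exact Or.inl h
    · rcases List.mem_cons.1 h with h | h
      · exact absurd h hne
      · exact Or.inr h
  have h7 : ∀ s3 : List ℕ, l ∈ s3 → (A l).count v ≤ (s3.map (fun l => (A l).count v)).sum :=
    fun s3 h3 => List.single_le_sum (fun _ _ => Nat.zero_le _) _ (List.mem_map.2 ⟨l, h3, rfl⟩)
  rcases h6 with h6 | h6
  · have := h7 s1 h6
    omega
  · have := h7 s2 h6
    omega

/-- the occurrences of `h` before `v` -/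
theorem before {n : ℕ} (hn : 2 ≤ n) {ζ A : ℕ → List ℕ} {s : List ℕ} (hs : s.Perm [0, 1, 2, 3])
    {v h l0 : ℕ} (hl0 : l0 < 4) (hC : Cc ζ v = 0) (hv : v ∈ A l0)
    (ho : ∀ l < 4, l ≠ l0 → v ∉ A l) (hh : ∀ l < 4, h ∉ A l) :
    ∃ i, cb (Yw n ζ A s) h v = i * (3 * n * Cc ζ h) + (Pp n ζ l0).count h ∧
      cb (Yw n ζ A s) h v + Cc ζ h ≤ (Yw n ζ A s).count h := by
  have hnd : s.Nodup := hs.nodup_iff.2 (by decide)
  obtain ⟨s1, s2, rfl⟩ := List.append_of_mem ((mem4 hs l0).2 hl0)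
  obtain ⟨a1, a2, ea, hva⟩ : ∃ a1 a2, A l0 = a1 ++ v :: a2 ∧ v ∉ a1 := by
    obtain ⟨a1, a2, e, h⟩ := List.eq_append_cons_of_mem hv
    exact ⟨a1, a2, e, h⟩
  rw [List.nodup_append, List.nodup_cons] at hnd
  have hs1 : ∀ l ∈ s1, l < 4 ∧ l ≠ l0 := by
    intro l hl
    refine ⟨(mem4 hs l).1 (by simp [hl]), ?_⟩
    rintro rfl
    exact hnd.2.2 l hl l (by simp) rfl
  have hv1 : v ∉ Yw n ζ A s1 := by
    rw [← List.count_eq_zero, cnt_Yw hn, hC, sum_zero]
    · simp
    · intro l hl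
      obtain ⟨h1, h2⟩ := hs1 l hl
      exact List.count_eq_zero.2 (ho l h1 h2)
  have hvP : v ∉ Pp n ζ l0 := by
    rw [← List.count_eq_zero]
    have := cnt_PQ hn ζ l0 v
    rw [hC] at this
    omega
  have e1 : Yw n ζ A (s1 ++ l0 :: s2) = (Yw n ζ A s1 ++ (Pp n ζ l0 ++ a1)) ++ v ::
      (a2 ++ (Qp n ζ l0 ++ Yw n ζ A s2)) := by
    rw [yw_eq, List.flatMap_append, List.flatMap_cons, ← yw_eq, ← yw_eq, ea]
    simp only [List.append_assoc, List.cons_append]
  have hnot : v ∉ Yw n ζ A s1 ++ (Pp n ζ l0 ++ a1) := by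
    intro h1
    rcases List.mem_append.1 h1 with h1 | h1
    · exact hv1 h1
    · rcases List.mem_append.1 h1 with h1 | h1
      · exact hvP h1
      · exact hva h1
  have e2 : cb (Yw n ζ A (s1 ++ l0 :: s2)) h v = (Yw n ζ A s1 ++ (Pp n ζ l0 ++ a1)).count h := by
    rw [e1]
    unfold cb
    rw [List.takeWhile_append_of_pos]
    · rw [List.takeWhile_cons_of_neg (by simp), List.append_nil]
    · intro c hc
      have : c ≠ v := fun h1 => hnot (h1 ▸ hc)
      simpa using this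
  have ha1 : a1.count h = 0 := by
    rw [List.count_eq_zero]
    intro h1
    exact hh l0 hl0 (by rw [ea]; simp [h1])
  have e3 : (Yw n ζ A s1).count h = s1.length * (3 * n * Cc ζ h) := by
    rw [cnt_Yw hn, sum_zero]
    · simp
    · intro l hl
      exact List.count_eq_zero.2 (hh l (hs1 l hl).1)
  refine ⟨s1.length, ?_, ?_⟩
  · rw [e2, List.count_append, List.count_append, ha1, e3]
    omega
  · rw [e2, e1, List.count_append (l₁ := Yw n ζ A s1 ++ (Pp n ζ l0 ++ a1))]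
    have h3 := le_Qp hn ζ l0 h
    have h4 : (Qp n ζ l0).count h ≤ (v :: (a2 ++ (Qp n ζ l0 ++ Yw n ζ A s2))).count h := by
      apply List.Sublist.count_le
      exact ((List.sublist_append_left _ _).trans (List.sublist_append_right _ _)).cons _
    omega

theorem yqz : YqzStmt := by
  intro n ζ A s s' Λ hn hs hs' hA
  have hp : (Yw n ζ A s).Perm (Yw n ζ A s') := by
    rw [yw_eq, yw_eq]
    exact List.Perm.flatMap_right _ (hs.trans hs'.symm)
  refine ⟨hp, ?_⟩
  intro v hv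
  obtain ⟨hC, l0, hl0, hvA, ho⟩ := place hn hs hv
  refine ⟨hA l0 hl0 v hvA, ?_⟩
  intro h hne
  by_cases hΛ : h ∈ Λ
  · exact Or.inl hΛ
  right
  have hh : ∀ l < 4, h ∉ A l := fun l hl h1 => hΛ (hA l hl h h1)
  obtain ⟨i, e1, f1⟩ := before hn hs hl0 hC hvA ho hh
  obtain ⟨i', e2, f2⟩ := before hn hs' hl0 hC hvA ho hh
  have hd : ∀ i : ℕ, i * (3 * n * Cc ζ h) + (Pp n ζ l0).count h ≡ (Pp n ζ l0).count h [MOD n] := by
    intro i
    have h1 : i * (3 * n * Cc ζ h) ≡ 0 [MOD n] := by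
      rw [Nat.modEq_zero_iff_dvd]
      exact ⟨i * (3 * Cc ζ h), by ring⟩
    have h2 := h1.add_right ((Pp n ζ l0).count h)
    rw [Nat.zero_add] at h2
    exact h2
  refine ⟨?_, ?_⟩
  · rw [e1, e2]
    exact (hd i).trans (hd i').symm
  · rcases Nat.eq_zero_or_pos (Cc ζ h) with h0 | h0
    · left
      rw [e1, e2, h0]
      simp
    · right
      have h1 : 1 ≤ (Pp n ζ l0).count h := by
        have h2 := le_Pp (n := n) ζ l0 h
        have h3 : 1 * 1 ≤ n * Cc ζ h := Nat.mul_le_mul (by omega) h0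
        omega
      refine ⟨by omega, by omega, by omega, by omega⟩

end Pool.Agent.MWFE.H41
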